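import Pool.Agent.EVR.Defs

/-!
# [EVR-D] counting: idempotent products, the index of `Az`
-/

set_option autoImplicit false

open EVS

namespace EVR

variable {S : Type} [Semigroup S] [Finite S]

/-- PROOF: `d ↦ (f, g)` (choice) is injective into pairs of idempotents (`d.1 = f * g`), and there are at most `nEnd S`
idempotents (`card_idem_le` of `EVS/Gen.lean`). -/
theorem card_DD (e : S) : (DD e).ncard ≤ nEnd S ^ 2 := by
  have h1 := card_idem_le (S := S)
  have h2 : Nat.card (DD e) ≤ Nat.card ({f : S // f * f = f} × {f : S // f * f = f}) := by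
    choose f g hf hg hfg using fun d : DD e => d.2
    refine Nat.card_le_card_of_injective (fun d => (⟨f d, hf d⟩, ⟨g d, hg d⟩)) ?_
    intro d d' h
    have h3 : f d = f d' := congrArg (fun p => p.1.1) h
    have h4 : g d = g d' := congrArg (fun p => p.2.1) h
    apply Subtype.ext
    apply HG.ext
    rw [hfg d, hfg d', h3, h4]
  rw [Nat.card_coe_set_eq, Nat.card_prod, ← sq] at h2
  exact h2.trans (Nat.pow_le_pow_left h1 2)

/-- PROOF: `Az e z` is the intersection of two subgroups `A₁ = {g | g.1 * z = e * z}` and `A₂ = {g | z * g.1 = z * e}`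
(`Subgroup.index_inf_le`). The index of `A₁` is the number of values of `g ↦ g.1 * z`: `g.1 * z = h.1 * z` iff
`g⁻¹ * h ∈ A₁` (multiply by the inverse); these values are in the kernel (`Ker z` gives `Ker (g.1 * z)`: `JLe (g.1 * z) z`,
`JLe.trans'`). The same for `A₂` with `g ↦ z * g.1` and right cosets (or `g ↦ z * (g⁻¹).1`). -/
theorem index_Az (e : S) [Fact (e * e = e)] {z : S} (hz : Ker z) :
    (Az e z).index ≤ Nat.card {s : S // Ker s} ^ 2 := by
  have hk1 : ∀ g : HG e, Ker (g.1 * z) := by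
    intro g t
    refine JLe.trans' ⟨g.1, 1, ?_⟩ (hz t)
    rw [mul_one, WithOne.coe_mul]
  have hk2 : ∀ g : HG e, Ker (z * g.1) := by
    intro g t
    refine JLe.trans' ⟨1, g.1, ?_⟩ (hz t)
    rw [one_mul, WithOne.coe_mul]
  have h2 : Nat.card (HG e ⧸ Az e z) ≤ Nat.card ({s : S // Ker s} × {s : S // Ker s}) := by
    refine Nat.card_le_card_of_injective
      (fun q => (⟨q.out.1 * z, hk1 q.out⟩, ⟨z * (q.out⁻¹).1, hk2 q.out⁻¹⟩)) ?_
    intro q q' h
    have h3 : q.out.1 * z = q'.out.1 * z := congrArg (fun p => p.1.1) h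
    have h4 : z * (q.out⁻¹).1 = z * (q'.out⁻¹).1 := congrArg (fun p => p.2.1) h
    have h5 : q.out⁻¹ * q'.out ∈ Az e z := by
      constructor
      · show (q.out⁻¹ * q'.out).1 * z = e * z
        rw [HG.coe_mul, mul_assoc, ← h3, ← mul_assoc, ← HG.coe_mul, inv_mul_cancel, HG.coe_one]
      · show z * (q.out⁻¹ * q'.out).1 = z * e
        rw [HG.coe_mul, ← mul_assoc, h4, mul_assoc, ← HG.coe_mul, inv_mul_cancel, HG.coe_one]
    have h6 := QuotientGroup.eq.2 h5
    rw [QuotientGroup.out_eq', QuotientGroup.out_eq'] at h6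
    exact h6
  rw [Nat.card_prod, ← sq] at h2
  exact h2

end EVR
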