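import Pool.Agent.EVR.Defs

/-!
# [EVR-GC] group theory: nilpotent groups with `r` generators
-/

set_option autoImplicit false

namespace EVR

attribute [local instance] commutatorElement

/-- PROOF: if `H ≠ ⊤` then `H` is contained in a maximal subgroup `M` (a coatom). `M` is normal, since `G` satisfies the normalizer
condition (`Group.normalizerCondition_of_isNilpotent`; `Subgroup.NormalizerCondition.normal_of_coatom`), and `G / M` has no
subgroups except `⊥`, `⊤`, so it is cyclic, so commutative, so `commutator G ≤ M`. So `H ⊔ commutator G ≤ M`. -/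
theorem eq_top_of_sup_commutator {G : Type} [Group G] [Finite G] (hG : Group.IsNilpotent G) (H : Subgroup G)
    (h : H ⊔ commutator G = ⊤) : H = ⊤ := by
  rcases eq_top_or_exists_le_coatom H with h0 | ⟨M, hM, hle⟩
  · exact h0
  exfalso
  have hnorm : M.Normal := Subgroup.NormalizerCondition.normal_of_coatom M
    (Group.normalizerCondition_of_isNilpotent (h := hG)) hM
  have hcomm : ∀ x y : G, (QuotientGroup.mk' M) x * (QuotientGroup.mk' M) y =
      (QuotientGroup.mk' M) y * (QuotientGroup.mk' M) x := by
    intro x y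
    by_cases hx : x ∈ M
    · have h1 : (QuotientGroup.mk' M) x = 1 := (QuotientGroup.eq_one_iff x).2 hx
      rw [h1, one_mul, mul_one]
    · have h2 : (Subgroup.zpowers ((QuotientGroup.mk' M) x)).comap (QuotientGroup.mk' M) = ⊤ := by
        apply hM.2
        refine lt_of_le_of_ne ?_ ?_
        · intro m hm
          rw [Subgroup.mem_comap]
          have h3 : (QuotientGroup.mk' M) m = 1 := (QuotientGroup.eq_one_iff m).2 hm
          rw [h3]
          exact Subgroup.one_mem _
        · intro h3
          apply hx
          rw [h3, Subgroup.mem_comap]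
          exact Subgroup.mem_zpowers _
      have h4 : y ∈ (Subgroup.zpowers ((QuotientGroup.mk' M) x)).comap (QuotientGroup.mk' M) := by
        rw [h2]
        exact Subgroup.mem_top y
      rw [Subgroup.mem_comap, Subgroup.mem_zpowers_iff] at h4
      obtain ⟨k, hk⟩ := h4
      rw [← hk]
      exact (Commute.refl _).zpow_right k
  have hcM : commutator G ≤ M := by
    rw [commutator_def, Subgroup.commutator_le]
    intro x _ y _
    have h5 : (QuotientGroup.mk' M) ⁅x, y⁆ = 1 := by
      rw [map_commutatorElement, commutatorElement_eq_one_iff_mul_comm]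
      exact hcomm x y
    exact (QuotientGroup.eq_one_iff _).1 h5
  exact hM.1 (top_le_iff.1 (h ▸ sup_le hle hcM))

theorem gc_abel (A : Type) [CommGroup A] [Finite A] {N r : ℕ} (hN : 0 < N) (hA : ∀ g : A, g ^ N = 1)
    (T : Set A) (hT : T.ncard ≤ r) (hcl : Subgroup.closure T = ⊤) : Nat.card A ≤ N ^ r := by
  classical
  have hTf : T.Finite := Set.toFinite T
  have hft : Fintype T := hTf.fintype
  have h1 : ∀ g : A, ∃ e : T → ℤ, ∏ t : T, (t : A) ^ (e t) = g := by
    intro g
    have hg : g ∈ Subgroup.closure T := by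
      rw [hcl]
      exact Subgroup.mem_top g
    refine Subgroup.closure_induction (p := fun g _ => ∃ e : T → ℤ, ∏ t : T, (t : A) ^ (e t) = g)
      ?_ ?_ ?_ ?_ hg
    · intro x hx
      refine ⟨Pi.single ⟨x, hx⟩ 1, ?_⟩
      rw [Finset.prod_eq_single (⟨x, hx⟩ : T)]
      · rw [Pi.single_eq_same, zpow_one]
      · intro t _ ht
        rw [Pi.single_eq_of_ne ht, zpow_zero]
      · intro h
        exact absurd (Finset.mem_univ _) h
    · exact ⟨0, by simp⟩
    · rintro x y _ _ ⟨e, rfl⟩ ⟨e', rfl⟩
      refine ⟨e + e', ?_⟩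
      rw [← Finset.prod_mul_distrib]
      refine Finset.prod_congr rfl (fun t _ => ?_)
      rw [Pi.add_apply, zpow_add]
    · rintro x _ ⟨e, rfl⟩
      refine ⟨-e, ?_⟩
      rw [← Finset.prod_inv_distrib]
      refine Finset.prod_congr rfl (fun t _ => ?_)
      rw [Pi.neg_apply, zpow_neg]
  have h2 : Function.Surjective (fun e : T → Fin N => ∏ t : T, (t : A) ^ ((e t : Fin N) : ℕ)) := by
    intro g
    obtain ⟨e, he⟩ := h1 g
    have hNz : (0 : ℤ) < N := by exact_mod_cast hN
    refine ⟨fun t => ⟨(e t % (N : ℤ)).toNat, ?_⟩, ?_⟩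
    · have h3 := Int.emod_lt_of_pos (e t) hNz
      have h4 := Int.emod_nonneg (e t) hNz.ne'
      omega
    · rw [← he]
      refine Finset.prod_congr rfl (fun t _ => ?_)
      have h4 := Int.emod_nonneg (e t) hNz.ne'
      have h5 : (t : A) ^ (e t) = (t : A) ^ (e t % (N : ℤ)) := zpow_eq_zpow_emod' (e t) (hA t)
      rw [h5]
      show (t : A) ^ ((e t % (N : ℤ)).toNat) = _
      rw [← zpow_natCast, Int.toNat_of_nonneg h4]
  have h3 := Nat.card_le_card_of_surjective _ h2
  refine h3.trans ?_
  rw [Nat.card_fun, Nat.card_eq_fintype_card (α := Fin N), Fintype.card_fin]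
  exact Nat.pow_le_pow_right hN hT

theorem gc_comm {G : Type} [Group G] (x y z z' : G) (hz : z ∈ Subgroup.center G)
    (hz' : z' ∈ Subgroup.center G) : ⁅x * z, y * z'⁆ = ⁅x, y⁆ := by
  have h1 : ∀ g : G, z * g = g * z := fun g => ((Subgroup.mem_center_iff.1 hz) g).symm
  have h2 : ∀ g : G, z' * g = g * z' := fun g => ((Subgroup.mem_center_iff.1 hz') g).symm
  rw [commutatorElement_def, commutatorElement_def, mul_inv_rev, mul_inv_rev]
  calc x * z * (y * z') * (z⁻¹ * x⁻¹) * (z'⁻¹ * y⁻¹)
      = x * (z * (y * z')) * z⁻¹ * x⁻¹ * z'⁻¹ * y⁻¹ := by group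
    _ = x * y * (z' * x⁻¹) * z'⁻¹ * y⁻¹ := by rw [h1]; group
    _ = x * y * x⁻¹ * y⁻¹ := by rw [h2]; group

/-- PROOF: induction on `k`. For `k = 0` the group is trivial. Step: let `(⊤).lowerCentralSeries (k + 1) = ⊥`. Then the lower
central series of `G ⧸ center G` vanishes at `k` (the term `k` of `G` is central, `map_lowerCentralSeries` for the quotient map; or
use `nilpotencyClass` and `nilpotencyClass_quotient_center`), so `|G / Z| ≤ b` by induction. A commutator `[x, y]` depends only
on the classes of `x`, `y` modulo the center, so `commutatorSet G` has at most `b ^ 2` elements, so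
`|G'| ≤ cardCommutatorBound (number)` (`Subgroup.card_commutator_le_of_finite_commutatorSet`, Mathlib `GroupTheory/Schreier`), which is at
most the sum of `cardCommutatorBound i` for `i ≤ b ^ 2`. The abelianization is generated by `r` elements of order dividing `N`,
so it has at most `N ^ r` elements. `|G| = |G'| |G / G'|`. -/
theorem exists_card_bound (k N r : ℕ) (hN : 0 < N) : ∃ b : ℕ, ∀ (G : Type) [Group G] [Finite G],
    (⊤ : Subgroup G).lowerCentralSeries k = ⊥ → (∀ g : G, g ^ N = 1) →
    (∃ T : Set G, T.ncard ≤ r ∧ Subgroup.closure T = ⊤) → Nat.card G ≤ b := by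
  induction k with
  | zero =>
    refine ⟨1, ?_⟩
    intro G _ _ h1 _ _
    rw [Subgroup.lowerCentralSeries_zero] at h1
    have h2 : Subsingleton G := by
      constructor
      intro a b
      have ha : a ∈ (⊤ : Subgroup G) := Subgroup.mem_top a
      have hb : b ∈ (⊤ : Subgroup G) := Subgroup.mem_top b
      rw [h1, Subgroup.mem_bot] at ha hb
      rw [ha, hb]
    rw [Nat.card_of_subsingleton (1 : G)]
  | succ k ih =>
    obtain ⟨b, hb⟩ := ih
    refine ⟨(∑ i ∈ Finset.range (b * b + 1), Subgroup.cardCommutatorBound i) * N ^ r, ?_⟩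
    intro G _ _ h1 h2 h3
    obtain ⟨T, hT1, hT2⟩ := h3
    have hnil : Group.IsNilpotent G := Subgroup.nilpotent_iff_lowerCentralSeries.2 ⟨k + 1, h1⟩
    have hQ : Nat.card (G ⧸ Subgroup.center G) ≤ b := by
      apply hb (G ⧸ Subgroup.center G)
      · rw [Subgroup.lowerCentralSeries_eq_bot_iff_nilpotencyClass_le]
        rw [Subgroup.lowerCentralSeries_eq_bot_iff_nilpotencyClass_le] at h1
        rw [Group.nilpotencyClass_quotient_center]
        omega
      · intro g
        obtain ⟨g, rfl⟩ := QuotientGroup.mk'_surjective (Subgroup.center G) g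
        rw [← map_pow, h2, map_one]
      · refine ⟨(QuotientGroup.mk' (Subgroup.center G)) '' T, ?_, ?_⟩
        · exact (Set.ncard_image_le (Set.toFinite T)).trans hT1
        · rw [← MonoidHom.map_closure, hT2]
          exact Subgroup.map_top_of_surjective _ (QuotientGroup.mk'_surjective _)
    have hcs : Nat.card (commutatorSet G) ≤ b * b := by
      let f : (G ⧸ Subgroup.center G) × (G ⧸ Subgroup.center G) → G :=
        fun p => ⁅p.1.out, p.2.out⁆
      have h4 : commutatorSet G ⊆ Set.range f := by
        rintro g ⟨x, y, rfl⟩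
        refine ⟨((x : G ⧸ Subgroup.center G), (y : G ⧸ Subgroup.center G)), ?_⟩
        obtain ⟨z, hz⟩ := QuotientGroup.mk_out_eq_mul (Subgroup.center G) x
        obtain ⟨z', hz'⟩ := QuotientGroup.mk_out_eq_mul (Subgroup.center G) y
        show ⁅(x : G ⧸ Subgroup.center G).out, (y : G ⧸ Subgroup.center G).out⁆ = _
        rw [hz, hz']
        exact gc_comm x y z z' z.2 z'.2
      calc Nat.card (commutatorSet G) = (commutatorSet G).ncard := rfl
        _ ≤ (Set.range f).ncard := Set.ncard_le_ncard h4 (Set.toFinite _)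
        _ = (f '' Set.univ).ncard := by rw [Set.image_univ]
        _ ≤ (Set.univ : Set ((G ⧸ Subgroup.center G) × (G ⧸ Subgroup.center G))).ncard :=
            Set.ncard_image_le (Set.toFinite _)
        _ = Nat.card (G ⧸ Subgroup.center G) * Nat.card (G ⧸ Subgroup.center G) := by
            rw [Set.ncard_univ, Nat.card_prod]
        _ ≤ b * b := Nat.mul_le_mul hQ hQ
    have h5 : Nat.card (commutator G) ≤
        ∑ i ∈ Finset.range (b * b + 1), Subgroup.cardCommutatorBound i := by
      refine (Subgroup.card_commutator_le_of_finite_commutatorSet G).trans ?_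
      exact Finset.single_le_sum (f := Subgroup.cardCommutatorBound) (fun i _ => Nat.zero_le _)
        (Finset.mem_range.2 (Nat.lt_succ_of_le hcs))
    have h6 : Nat.card (Abelianization G) ≤ N ^ r := by
      have hfin : Finite (Abelianization G) := Finite.of_surjective Abelianization.of
        (QuotientGroup.mk'_surjective _)
      apply gc_abel (Abelianization G) hN _ (Abelianization.of '' T)
        ((Set.ncard_image_le (Set.toFinite T)).trans hT1)
      · rw [← MonoidHom.map_closure, hT2]
        exact Subgroup.map_top_of_surjective _ (QuotientGroup.mk'_surjective _)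
      · intro g
        obtain ⟨g, rfl⟩ := QuotientGroup.mk'_surjective (commutator G) g
        show (Abelianization.of g) ^ N = 1
        rw [← map_pow, h2, map_one]
    rw [← Subgroup.card_mul_index (commutator G)]
    exact Nat.mul_le_mul h5 h6

end EVR
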