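import Pool.Agent.EVR.Defs

/-!
# [EVR-GE] group theory: counting homomorphisms into a group of order `p`
-/

set_option autoImplicit false

namespace EVR

theorem GE_core {G V : Type} [Group G] [Finite G] [AddCommGroup V] [Finite V] (A : Subgroup G)
    (D : Set G) {p : ℕ} (hp : p.Prime) {z : G} (hzA : z ∈ A) (hz : orderOf z = p)
    (hV : ∀ v : V, p • v = 0) (π : G → V) (hπmul : ∀ g h : G, π (g * h) = π g + π h)
    (hπsurj : Function.Surjective π) : Nat.card V ≤ p ^ D.ncard * Nat.card (HomDA D A) := by
  classical
  have : Fact p.Prime := ⟨hp⟩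
  obtain ⟨_⟩ : Nonempty (Module (ZMod p) V) := ⟨AddCommGroup.zmodModule hV⟩
  have : Module.Finite (ZMod p) V := Module.Finite.of_finite
  let W : Submodule (ZMod p) V := Submodule.span (ZMod p) (π '' D)
  have hDfin : D.Finite := Set.toFinite D
  have h1 : Module.finrank (ZMod p) W ≤ D.ncard := by
    have : Fintype (π '' D) := Fintype.ofFinite _
    refine (finrank_span_le_card (π '' D)).trans ?_
    rw [← Set.ncard_eq_toFinset_card']
    exact Set.ncard_image_le hDfin
  have h2 : Nat.card V = p ^ Module.finrank (ZMod p) V := by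
    have h3 : Nat.card V = Nat.card (ZMod p) ^ Module.finrank (ZMod p) V :=
      Module.natCard_eq_pow_finrank
    rwa [Nat.card_zmod] at h3
  have h3 := W.finrank_quotient_add_finrank
  have h4 : Nat.card (Module.Dual (ZMod p) (V ⧸ W)) = p ^ Module.finrank (ZMod p) (V ⧸ W) := by
    have h5 : Nat.card (Module.Dual (ZMod p) (V ⧸ W)) =
        Nat.card (ZMod p) ^ Module.finrank (ZMod p) (Module.Dual (ZMod p) (V ⧸ W)) :=
      Module.natCard_eq_pow_finrank
    rwa [Nat.card_zmod, Subspace.dual_finrank_eq] at h5
  have hmod : ∀ n : ℕ, z ^ (n % p) = z ^ n := by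
    intro n
    rw [← hz, pow_mod_orderOf]
  let ψ : Module.Dual (ZMod p) (V ⧸ W) → G →* G := fun f =>
    { toFun := fun g => z ^ (f (Submodule.Quotient.mk (π g))).val
      map_one' := by
        have h6 : π 1 = 0 := by
          have := hπmul 1 1
          rw [mul_one] at this
          simpa using this
        rw [h6, Submodule.Quotient.mk_zero, map_zero, ZMod.val_zero, pow_zero]
      map_mul' := by
        intro g h
        rw [hπmul, Submodule.Quotient.mk_add, map_add, ZMod.val_add, ← pow_add]
        exact hmod _ }
  have hψ : ∀ f g, ψ f g = z ^ (f (Submodule.Quotient.mk (π g))).val := fun _ _ => rfl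
  let Φ : Module.Dual (ZMod p) (V ⧸ W) → HomDA D A := fun f => ⟨ψ f, by
    constructor
    · intro d hd
      have h6 : (Submodule.Quotient.mk (π d) : V ⧸ W) = 0 :=
        (Submodule.Quotient.mk_eq_zero W).2 (Submodule.subset_span ⟨d, hd, rfl⟩)
      rw [hψ, h6, map_zero, ZMod.val_zero, pow_zero]
    · intro g
      rw [hψ]
      exact A.pow_mem hzA _⟩
  have hΦ : Function.Injective Φ := by
    intro f f' hff
    have h6 : ψ f = ψ f' := congrArg Subtype.val hff
    refine LinearMap.ext fun v => ?_
    obtain ⟨v, rfl⟩ := Submodule.Quotient.mk_surjective W v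
    obtain ⟨g, rfl⟩ := hπsurj v
    have h7 : ψ f g = ψ f' g := by rw [h6]
    rw [hψ, hψ] at h7
    have h8 := pow_injOn_Iio_orderOf (x := z) (by rw [hz]; exact ZMod.val_lt _)
      (by rw [hz]; exact ZMod.val_lt _) h7
    exact ZMod.val_injective p h8
  have : Finite (HomDA D A) := by
    unfold HomDA
    have : Finite (G →* G) := DFunLike.finite _
    infer_instance
  have h5 : Nat.card (Module.Dual (ZMod p) (V ⧸ W)) ≤ Nat.card (HomDA D A) :=
    Nat.card_le_card_of_injective Φ hΦ
  calc Nat.card V = p ^ Module.finrank (ZMod p) W * p ^ Module.finrank (ZMod p) (V ⧸ W) := by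
        rw [h2, ← pow_add, ← h3, add_comm]
    _ ≤ p ^ D.ncard * Nat.card (HomDA D A) := by
        rw [← h4]
        exact Nat.mul_le_mul (Nat.pow_le_pow_right hp.pos h1) h5

/-- PROOF: let `Q = Abelianization G`, `R` the subgroup of `p`-th powers of `Q`, `W = R ⊔ closure (image of D)`.
`[W : R] ≤ p ^ D.ncard`: `W / R` is commutative of exponent `p` and generated by the at most `D.ncard` images of elements of `D`.
`[Q : W] ≤` the number of homomorphisms `Q / W → Z` for `Z = Subgroup.zpowers z` of order `p`, since `Q / W` is a vector space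
over `ZMod p` (`AddCommGroup.zmodModule`), which has as many elements as its dual. Each such homomorphism gives an element of
`HomDA D A` by composition `G → Q → Q / W → Z → G` (it is trivial on `D`, and `Z ≤ A`), and this map is injective.
(`D` is finite, since `G` is.) -/
theorem index_le_hom {G : Type} [Group G] [Finite G] (A : Subgroup G) (D : Set G) {p : ℕ} (hp : p.Prime) {z : G}
    (hzA : z ∈ A) (hz : orderOf z = p) :
    (powMonoidHom p : Abelianization G →* Abelianization G).range.index ≤
      p ^ D.ncard * Nat.card (HomDA D A) := by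
  have hfG : Finite (Abelianization G) := Quotient.finite _
  have hfQ : Finite (Abelianization G ⧸
    (powMonoidHom p : Abelianization G →* Abelianization G).range) := Quotient.finite _
  have hfV : Finite (Additive (Abelianization G ⧸
    (powMonoidHom p : Abelianization G →* Abelianization G).range)) := hfQ
  refine GE_core A D hp hzA hz (V := Additive (Abelianization G ⧸
    (powMonoidHom p : Abelianization G →* Abelianization G).range)) ?_
    (fun g => Additive.ofMul (QuotientGroup.mk (Abelianization.of g))) ?_ ?_
  · intro v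
    obtain ⟨q, hq⟩ := QuotientGroup.mk_surjective (Additive.toMul v)
    have h1 : (Additive.toMul v) ^ p = 1 := by
      rw [← hq, ← QuotientGroup.mk_pow, QuotientGroup.eq_one_iff]
      exact ⟨q, rfl⟩
    exact h1
  · intro g h
    rw [map_mul, QuotientGroup.mk_mul]
    rfl
  · intro v
    obtain ⟨q, hq⟩ := QuotientGroup.mk_surjective (Additive.toMul v)
    obtain ⟨g, hg⟩ := QuotientGroup.mk_surjective q
    refine ⟨g, ?_⟩
    have h1 : (Abelianization.of g : Abelianization G) = q := hg
    dsimp only
    rw [h1, hq]
    rfl

end EVR
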