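import Pool.Agent.EVR.GA
import Pool.Agent.EVR.GE
import Pool.Agent.EVR.GC

/-!
# [EVR-GF] the group lemma
-/

set_option autoImplicit false

namespace EVR

theorem exists_GLB (k N a m B : ℕ) (hN : 0 < N) : ∃ F : ℕ, GLB k N a m B F := by
  obtain ⟨b, hb⟩ := exists_card_bound k N ((max a (N ^ m * B)) ^ N) hN
  refine ⟨b, ?_⟩
  intro G _ _ hk hexp A D hA hD hB
  have hnil : Group.IsNilpotent G := Subgroup.nilpotent_iff_lowerCentralSeries.2 ⟨k, hk⟩
  have hidx : ∀ p : ℕ, p.Prime → (powMonoidHom p : Abelianization G →* Abelianization G).range.index ≤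
      max a (N ^ m * B) := by
    intro p hp
    rcases pcase A hp with ⟨z, hz, ho⟩ | h
    · refine le_trans (index_le_hom A D hp hz ho) (le_trans ?_ (le_max_right _ _))
      have hpN : p ≤ N := Nat.le_of_dvd hN (ho ▸ orderOf_dvd_of_pow_eq_one (hexp z))
      exact Nat.mul_le_mul (le_trans (Nat.pow_le_pow_right hp.pos hD) (Nat.pow_le_pow_left hpN m)) hB
    · exact le_trans h (le_trans hA (le_max_left _ _))
  have hQ : ∀ q : Abelianization G, q ^ N = 1 := by
    intro q
    obtain ⟨g, rfl⟩ : ∃ g : G, Abelianization.of g = q := QuotientGroup.mk_surjective q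
    rw [← map_pow, hexp g, map_one]
  have hcard := card_le_of_powers hN hQ hidx
  refine hb G hk hexp ⟨Set.range (fun q : Abelianization G => (Quotient.out q : G)), ?_, ?_⟩
  · have h1 : (Set.range (fun q : Abelianization G => (Quotient.out q : G))).ncard ≤ Nat.card (Abelianization G) := by
      rw [← Set.image_univ, ← Set.ncard_univ]
      exact Set.ncard_image_le Set.finite_univ
    exact le_trans h1 hcard
  · refine eq_top_of_sup_commutator hnil _ ?_
    rw [eq_top_iff]
    intro g _
    have h1 : (QuotientGroup.mk (Quotient.out (QuotientGroup.mk g : G ⧸ commutator G)) : G ⧸ commutator G) =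
        QuotientGroup.mk g := QuotientGroup.out_eq' _
    rw [QuotientGroup.eq] at h1
    have h2 : g = Quotient.out (QuotientGroup.mk g : G ⧸ commutator G) *
        ((Quotient.out (QuotientGroup.mk g : G ⧸ commutator G))⁻¹ * g) := by group
    rw [h2]
    exact Subgroup.mul_mem_sup (Subgroup.subset_closure ⟨_, rfl⟩) h1

end EVR
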