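import Pool.Agent.EVR.J1

/-!
# [EVR-K] the kernel; counting group elements
-/

set_option autoImplicit false

open EVS

namespace EVR

variable {S : Type} [Semigroup S] [Finite S]

omit [Finite S] in
private theorem k_le_left (a b : S) : JLe (a * b) a := ⟨1, (b : WithOne S), by rw [one_mul, WithOne.coe_mul]⟩

omit [Finite S] in
private theorem k_le_right (a b : S) : JLe (a * b) b := ⟨(a : WithOne S), 1, by rw [mul_one, WithOne.coe_mul]⟩

omit [Finite S] in
private theorem k_le_pw (a : S) (n : ℕ) : JLe (pw a n) a := by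
  cases n with
  | zero => exact ⟨1, 1, by rw [one_mul, mul_one, pw_zero]⟩
  | succ n => exact k_le_right _ _

omit [Finite S] in
private theorem k_trans {a b c : S} (h1 : JLe a b) (h2 : JLe b c) : JLe a c := by
  obtain ⟨x, y, h1⟩ := h1
  obtain ⟨z, w, h2⟩ := h2
  refine ⟨x * z, w * y, ?_⟩
  rw [h1, h2]
  simp only [mul_assoc]

omit [Finite S] in
private theorem k_pw_left {e a : S} (h : e * a = a) (n : ℕ) : e * pw a n = pw a n := by
  induction n with
  | zero => exact h
  | succ n ih => rw [pw_succ, ← mul_assoc, ih]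

omit [Finite S] in
private theorem k_pw_right {e a : S} (h : a * e = a) (n : ℕ) : pw a n * e = pw a n := by
  cases n with
  | zero => exact h
  | succ n => rw [pw_succ, mul_assoc, h]

omit [Finite S] in
private theorem k_coe_mul (b : S) (v : WithOne S) : ∃ b' : S, (b' : WithOne S) = b * v := by
  induction v using WithOne.recOneCoe with
  | one => exact ⟨b, (mul_one _).symm⟩
  | coe w => exact ⟨b * w, WithOne.coe_mul b w⟩

omit [Finite S] in
private theorem k_mul_coe (b : S) (v : WithOne S) : ∃ b' : S, (b' : WithOne S) = v * b := by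
  induction v using WithOne.recOneCoe with
  | one => exact ⟨b, (one_mul _).symm⟩
  | coe w => exact ⟨w * b, WithOne.coe_mul w b⟩

/-- PROOF: let `k` be the product (in some order) of all elements of `S` (for instance `prd` of the list `Finset.univ.toList`,
`exists_prd`); every `t` is a factor of `k`. Or: by induction on finite sets of `S` there is an element below all
elements of the set. -/
theorem exists_ker [Nonempty S] : ∃ k : S, Ker k := by
  classical
  have := Fintype.ofFinite S
  have key : ∀ A : Finset S, ∃ k : S, ∀ t ∈ A, JLe k t := by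
    intro A
    induction A using Finset.induction_on with
    | empty => exact ⟨Classical.arbitrary S, fun t ht => absurd ht (Finset.notMem_empty t)⟩
    | insert a A ha ih =>
      obtain ⟨k, hk⟩ := ih
      refine ⟨a * k, fun t ht => ?_⟩
      rcases Finset.mem_insert.mp ht with h | h
      · rw [h]; exact k_le_left a k
      · exact k_trans (k_le_right a k) (hk t h)
  obtain ⟨k, hk⟩ := key Finset.univ
  exact ⟨k, fun t => hk t (Finset.mem_univ t)⟩

/-- PROOF: take `k` of `exists_ker` and `z = om (e * k * e)`, a power of `e * k * e`, so below `k`, and `e * z = z = z * e`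
(`om_idem`). -/
theorem exists_z {e : S} (he : e * e = e) : ∃ z : S, Ker z ∧ z * z = z ∧ e * z = z ∧ z * e = z := by
  have : Nonempty S := ⟨e⟩
  obtain ⟨k, hk⟩ := exists_ker (S := S)
  obtain ⟨n, hn⟩ := om_eq_pw (e * k * e)
  refine ⟨om (e * k * e), fun t => ?_, om_idem _, ?_, ?_⟩
  · rw [hn]
    exact k_trans (k_le_pw _ _) (k_trans (k_le_left _ _) (k_trans (k_le_right _ _) (hk t)))
  · rw [hn]
    exact k_pw_left (by rw [← mul_assoc, ← mul_assoc, he]) n
  · rw [hn]
    exact k_pw_right (by rw [mul_assoc, he]) n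

/-- PROOF: `k` is below `k * k`: `k = x * k * k * y` in `WithOne S`, and this is a product of the two elements `x * k` and
`k * y` of `S`. -/
theorem gp_of_ker (h : PG S) {k : S} (hk : Ker k) : IsGp k := by
  obtain ⟨x, y, hxy⟩ := hk (k * k)
  obtain ⟨p, hp⟩ := k_mul_coe k x
  obtain ⟨q, hq⟩ := k_coe_mul k y
  have h1 : k = p * q := by
    rw [← coe_inj, WithOne.coe_mul, hp, hq]
    conv_lhs => rw [hxy, WithOne.coe_mul]
    simp only [mul_assoc]
  rw [h1]
  exact h p q

omit [Finite S] in
/-- PROOF: `om k` is a power of `k`. -/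
theorem ker_om [Finite S] {k : S} (hk : Ker k) : Ker (om k) := by
  intro t
  obtain ⟨n, hn⟩ := om_eq_pw k
  rw [hn]
  exact k_trans (k_le_pw _ _) (hk t)

/-- PROOF: `s ↦ (om s, s)` is injective into the pairs `(e, g)`, `e` idempotent with `Q e`, `g : HG e` (`om_idem`; if `IsGp s` then
`s * om s = s` by `isGp_iff`, `om s * s = s` by `om_comm`, and an inverse of `s` is a power of `s`: `om s = pw s n`,
`pw s (2 n) * s = om s`). There are at most `nEnd S` idempotents (`card_idem_le`), and at most `F` choices of `g` for each. -/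
theorem card_gp_le (Q : S → Prop) (F : ℕ) (hF : ∀ e : S, e * e = e → Q e → Nat.card (HG e) ≤ F) :
    Nat.card {s : S // IsGp s ∧ Q (om s)} ≤ nEnd S * F := by
  classical
  have := Fintype.ofFinite S
  have hmem : ∀ s : S, IsGp s → om s * s = s ∧ s * om s = s ∧
      ∃ t : S, om s * t = t ∧ t * om s = t ∧ s * t = om s ∧ t * s = om s := by
    intro s hs
    have h1 : s * om s = s := isGp_iff.mp hs
    obtain ⟨n, hn⟩ := om_eq_pw s
    have h0 := om_idem s
    have hc : pw s (n + n) * om s = om s * pw s (n + n) := by rw [hn, pw_comm]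
    have h2 : s * pw s (n + n) = om s := by
      rw [mul_pw, ← pw_mul_pw, ← hn, h0]
    refine ⟨by rw [om_comm, h1], h1, om s * pw s (n + n), ?_, ?_, ?_, ?_⟩
    · rw [← mul_assoc, h0]
    · rw [mul_assoc, hc, ← mul_assoc, h0]
    · rw [← mul_assoc, h1, h2]
    · rw [mul_assoc, ← mul_pw_comm, h2, h0]
  let f : {s : S // IsGp s ∧ Q (om s)} → Σ e : {e : S // e * e = e ∧ Q e}, HG e.1 := fun s =>
    ⟨⟨om s.1, om_idem s.1, s.2.2⟩, ⟨s.1, hmem s.1 s.2.1⟩⟩
  have hf : Function.Injective f := by
    intro s t hst
    apply Subtype.ext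
    exact congrArg (fun p : Σ e : {e : S // e * e = e ∧ Q e}, HG e.1 => p.2.1) hst
  refine (Nat.card_le_card_of_injective f hf).trans ?_
  rw [Nat.card_sigma]
  have h1 : ∑ a : {e : S // e * e = e ∧ Q e}, Nat.card (HG a.1) ≤
      ∑ _a : {e : S // e * e = e ∧ Q e}, F :=
    Finset.sum_le_sum fun a _ => hF a.1 a.2.1 a.2.2
  refine h1.trans ?_
  rw [Finset.sum_const, smul_eq_mul, Finset.card_univ, ← Nat.card_eq_fintype_card]
  apply Nat.mul_le_mul_right
  refine le_trans ?_ (card_idem_le (S := S))
  exact Nat.card_le_card_of_injective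
    (fun a : {e : S // e * e = e ∧ Q e} => (⟨a.1, a.2.1⟩ : {e : S // e * e = e}))
    (fun a b hab => Subtype.ext (congrArg (fun x : {e : S // e * e = e} => x.1) hab))

end EVR
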