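import Pool.Agent.EVR.J1

/-!
# [EVR-X] counting the elements that are not in subgroups
-/

set_option autoImplicit false

open EVS

namespace EVR

variable {S : Type} [Semigroup S] [Finite S]

/-- `a` and `b` act in the same way on the group elements -/
def Same (a b : S) : Prop := ∀ r : S, IsGp r → a * r = b * r ∧ r * a = r * b

/-- PROOF: let `u = a * b`, `v = a' * b'`, `f = om u`, `f' = om v` (idempotents, `pg_mul_om`, `pg_om_mul`).
`u = u * f = a * (b * f) = a * (b' * f)` (`f` is a group element) `= a' * (b' * f)` (`b' * f` is a group element by `PG`)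
`= v * f`. In the same way `u = f * u = (f * a) * b = (f * a') * b = f * a' * b' = f * v` (`f * a'` is a group element).
By symmetry `v = u * f' = f' * v`, `v = f' * u`. Now `f * v = f * (u * f') = u * f' = v`, and `f * v = u`. So `u = v`. -/
theorem mul_same (h : PG S) {a a' b b' : S} (ha : Same a a') (hb : Same b b') : a * b = a' * b' := by
  have hid : ∀ f : S, f * f = f → IsGp f := fun f hf => ⟨f, f, hf, hf, hf, hf, hf⟩
  have key : ∀ {a a' b b' : S}, Same a a' → Same b b' →
      a * b = a' * b' * om (a * b) ∧ a * b = om (a * b) * (a' * b') := by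
    intro a a' b b' ha hb
    have h1 := pg_mul_om h a b
    have h2 := pg_om_mul h a b
    have hf := hid _ (om_idem (a * b))
    constructor
    · calc a * b = a * (b * om (a * b)) := by rw [← mul_assoc, h1]
        _ = a * (b' * om (a * b)) := by rw [(hb _ hf).1]
        _ = a' * (b' * om (a * b)) := (ha _ (h _ _)).1
        _ = _ := by rw [mul_assoc]
    · calc a * b = om (a * b) * a * b := by rw [mul_assoc, h2]
        _ = om (a * b) * a' * b := by rw [(ha _ hf).2]
        _ = om (a * b) * a' * b' := (hb _ (h _ _)).2
        _ = _ := by rw [mul_assoc]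
  have hs : ∀ {a b : S}, Same a b → Same b a := fun h r hr => ⟨(h r hr).1.symm, (h r hr).2.symm⟩
  obtain ⟨h1, h2⟩ := key ha hb
  obtain ⟨h3, h4⟩ := key (hs ha) (hs hb)
  calc a * b = om (a * b) * (a' * b') := h2
    _ = om (a * b) * (a * b * om (a' * b')) := by rw [← h3]
    _ = om (a * b) * (a * b) * om (a' * b') := (mul_assoc _ _ _).symm
    _ = a * b * om (a' * b') := by rw [pg_om_mul h]
    _ = a' * b' := h3.symm

/-- PROOF: write `R = {s // IsGp s}`, `X = {s // ¬ IsGp s}`. The map `X → (R → R × R)`, `x ↦ (r ↦ (x r, r x))` (products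
are group elements by `PG`) has at most `(|R| ^ 2) ^ |R|` values, and `Same x y` holds if the values are equal. So it is enough
that every fibre has at most `nEnd S` elements. Fix `x` in `X`. For every `y` in `X` with `Same x y` let `φ_y` be the
map that is `y` at `x` and the identity elsewhere. It is an endomorphism: products are group elements, so not `x`, and
`φ_y s`, `s` are `Same` for all `s`, so `φ_y s * φ_y t = s * t` (`mul_same`) `= φ_y (s * t)`. The map `y ↦ φ_y` is injective.
(If `R` is empty, then `X` is empty, since `x * x` is in `R`.) -/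
theorem card_nongp_le (h : PG S) : Nat.card {s : S // ¬ IsGp s} ≤
    nEnd S * (Nat.card {s : S // IsGp s} ^ 2) ^ Nat.card {s : S // IsGp s} := by
  classical
  have := Fintype.ofFinite S
  let Φ : {s : S // ¬ IsGp s} → ({s : S // IsGp s} → {s : S // IsGp s} × {s : S // IsGp s}) :=
    fun x r => (⟨x.1 * r.1, h _ _⟩, ⟨r.1 * x.1, h _ _⟩)
  have hfib : ∀ y, Nat.card {x : {s : S // ¬ IsGp s} // Φ x = y} ≤ nEnd S := by
    intro y
    by_cases hne : Nonempty {x : {s : S // ¬ IsGp s} // Φ x = y}
    · obtain ⟨x0⟩ := hne
      have hsame : ∀ z : {x : {s : S // ¬ IsGp s} // Φ x = y}, Same z.1.1 x0.1.1 := by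
        intro z r hr
        have h1 : Φ z.1 ⟨r, hr⟩ = Φ x0.1 ⟨r, hr⟩ := by rw [z.2, x0.2]
        exact ⟨congrArg (fun p : {s : S // IsGp s} × {s : S // IsGp s} => p.1.1) h1,
          congrArg (fun p : {s : S // IsGp s} × {s : S // IsGp s} => p.2.1) h1⟩
      apply card_le_nEnd (fun (z : {x : {s : S // ¬ IsGp s} // Φ x = y}) ψ => ψ x0.1.1 = z.1.1)
      · intro z
        let g : S → S := fun s => if s = x0.1.1 then z.1.1 else s
        have hg : ∀ s, Same (g s) s := by
          intro s
          show Same (if s = x0.1.1 then z.1.1 else s) s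
          by_cases hs : s = x0.1.1
          · rw [if_pos hs, hs]; exact hsame z
          · rw [if_neg hs]; exact fun r _ => ⟨rfl, rfl⟩
        refine ⟨⟨g, fun s t => ?_⟩, ?_⟩
        · have h1 : g (s * t) = s * t := by
            show (if s * t = x0.1.1 then z.1.1 else s * t) = s * t
            rw [if_neg]
            intro h2
            apply x0.1.2
            rw [← h2]
            exact h s t
          rw [h1]
          exact (mul_same h (hg s) (hg t)).symm
        · show (if x0.1.1 = x0.1.1 then z.1.1 else x0.1.1) = z.1.1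
          rw [if_pos rfl]
      · intro a a' ψ h1 h2
        apply Subtype.ext
        apply Subtype.ext
        rw [← h1, ← h2]
    · rw [not_nonempty_iff] at hne
      rw [Nat.card_of_isEmpty]
      exact Nat.zero_le _
  rw [← Nat.card_congr (Equiv.sigmaFiberEquiv Φ), Nat.card_sigma]
  refine (Finset.sum_le_sum fun y _ => hfib y).trans ?_
  rw [Finset.sum_const, smul_eq_mul, Finset.card_univ, ← Nat.card_eq_fintype_card, Nat.card_fun,
    Nat.card_prod, mul_comm, pow_two]

end EVR
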