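import Pool.Agent.EVR.E
import Pool.Agent.EVR.D
import Pool.Agent.EVR.K
import Pool.Agent.EVR.X
import Pool.Agent.EVR.GF

/-!
# [EVR-B] semigroups with few endomorphisms are small
-/

set_option autoImplicit false

open EVS

namespace EVR

/-- the maximal subgroups of `S` have nilpotency class at most `k` and exponent dividing `N` -/
def GpC (S : Type) [Semigroup S] (k N : ℕ) : Prop :=
  ∀ (e : S) [Fact (e * e = e)], (⊤ : Subgroup (HG e)).lowerCentralSeries k = ⊥ ∧ ∀ g : HG e, g ^ N = 1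

theorem bound (k N B : ℕ) (hN : 0 < N) : ∃ n : ℕ, ∀ (S : Type) [Semigroup S] [Finite S], PG S → GpC S k N →
    nEnd S ≤ B → Nat.card S ≤ n := by
  obtain ⟨F1, hF1⟩ := exists_GLB k N 1 (B ^ 2) B hN
  obtain ⟨F2, hF2⟩ := exists_GLB k N ((B * F1) ^ 2) (B ^ 2) B hN
  refine ⟨B * F2 + B * ((B * F2) ^ 2 + 1) ^ (B * F2), ?_⟩
  intro S _ _ hPG hGp hB
  have hDD : ∀ e : S, (DD e).ncard ≤ B ^ 2 := fun e => le_trans (card_DD e) (Nat.pow_le_pow_left hB 2)
  have h1 : ∀ e : S, e * e = e → Ker e → Nat.card (HG e) ≤ F1 := by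
    intro e he hk
    have : Fact (e * e = e) := ⟨he⟩
    exact hF1 (HG e) (hGp e).1 (hGp e).2 ⊤ (DD e) (by rw [Subgroup.index_top]) (hDD e)
      (le_trans (hom_le_ker hPG e hk) hB)
  have h2 : Nat.card {s : S // Ker s} ≤ B * F1 := by
    have h3 := le_trans (card_gp_le (S := S) Ker F1 h1) (Nat.mul_le_mul_right F1 hB)
    refine le_trans (Nat.card_le_card_of_injective
      (fun s : {s : S // Ker s} => (⟨s.1, gp_of_ker hPG s.2, ker_om s.2⟩ : {s : S // IsGp s ∧ Ker (om s)})) ?_) h3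
    intro a b hab
    exact Subtype.ext (congrArg (fun x => x.1) hab)
  have h4 : ∀ e : S, e * e = e → True → Nat.card (HG e) ≤ F2 := by
    intro e he _
    have : Fact (e * e = e) := ⟨he⟩
    obtain ⟨z, hz, hzz, hez, hze⟩ := exists_z he
    exact hF2 (HG e) (hGp e).1 (hGp e).2 (Az e z) (DD e)
      (le_trans (index_Az e hz) (Nat.pow_le_pow_left h2 2)) (hDD e)
      (le_trans (hom_le hPG e hzz hez hze) hB)
  have h5 : Nat.card {s : S // IsGp s} ≤ B * F2 := by
    have h3 := le_trans (card_gp_le (S := S) (fun _ => True) F2 h4) (Nat.mul_le_mul_right F2 hB)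
    refine le_trans (Nat.card_le_card_of_injective
      (fun s : {s : S // IsGp s} => (⟨s.1, s.2, trivial⟩ : {s : S // IsGp s ∧ True})) ?_) h3
    intro a b hab
    exact Subtype.ext (congrArg (fun x => x.1) hab)
  have h6 : Nat.card {s : S // ¬ IsGp s} ≤ B * ((B * F2) ^ 2 + 1) ^ (B * F2) := by
    refine le_trans (card_nongp_le hPG) (Nat.mul_le_mul hB ?_)
    have h7 : Nat.card {s : S // IsGp s} ^ 2 ≤ (B * F2) ^ 2 + 1 :=
      le_trans (Nat.pow_le_pow_left h5 2) (Nat.le_succ _)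
    exact le_trans (Nat.pow_le_pow_left h7 _) (Nat.pow_le_pow_right (Nat.succ_pos _) h5)
  have h8 : Nat.card S = Nat.card {s : S // IsGp s} + Nat.card {s : S // ¬ IsGp s} := by
    classical
    rw [← Nat.card_sum]
    exact (Nat.card_congr (Equiv.sumCompl (fun s : S => IsGp s))).symm
  rw [h8]
  exact Nat.add_le_add h5 h6

end EVR
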