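import Pool.Agent.EVA.F1
import Pool.Agent.EVS.Gen

/-!
# [EVR] varieties of semigroups in which all products are elements of subgroups, and finite groups are nilpotent
(MP_2a8755_al): definitions
-/

set_option autoImplicit false

open EVS

namespace EVR

/-- all products of two elements are elements of subgroups -/
def PG (S : Type) [Semigroup S] : Prop := ∀ s t : S, IsGp (s * t)

/-- the maximal subgroup at the idempotent `e` -/
def HG {S : Type} [Semigroup S] (e : S) : Type :=
  {g : S // e * g = g ∧ g * e = g ∧ ∃ h : S, e * h = h ∧ h * e = h ∧ g * h = e ∧ h * g = e}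

section
variable {S : Type} [Semigroup S]

theorem HG.ext {e : S} {a b : HG e} (h : a.1 = b.1) : a = b := Subtype.ext h

noncomputable instance HG.group (e : S) [he : Fact (e * e = e)] : Group (HG e) where
  mul a b := ⟨a.1 * b.1, by rw [← mul_assoc, a.2.1], by rw [mul_assoc, b.2.2.1], by
    obtain ⟨-, a2, a', a3, a4, a5, a6⟩ := a.2
    obtain ⟨b1, -, b', b3, b4, b5, b6⟩ := b.2
    refine ⟨b' * a', by rw [← mul_assoc, b3], by rw [mul_assoc, a4], ?_, ?_⟩
    · rw [mul_assoc, ← mul_assoc b.1, b5, a3, a5]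
    · rw [mul_assoc, ← mul_assoc a' a.1, a6, b1, b6]⟩
  mul_assoc a b c := HG.ext (mul_assoc a.1 b.1 c.1)
  one := ⟨e, he.out, he.out, e, he.out, he.out, he.out, he.out⟩
  one_mul a := HG.ext a.2.1
  mul_one a := HG.ext a.2.2.1
  inv a := ⟨a.2.2.2.choose, a.2.2.2.choose_spec.1, a.2.2.2.choose_spec.2.1, a.1, a.2.1, a.2.2.1,
    a.2.2.2.choose_spec.2.2.2, a.2.2.2.choose_spec.2.2.1⟩
  inv_mul_cancel a := HG.ext a.2.2.2.choose_spec.2.2.2

theorem HG.coe_mul {e : S} [Fact (e * e = e)] (a b : HG e) : (a * b).1 = a.1 * b.1 := rfl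

theorem HG.coe_one {e : S} [Fact (e * e = e)] : (1 : HG e).1 = e := rfl

instance HG.finite [Finite S] (e : S) : Finite (HG e) := Subtype.finite

/-- the group elements that are products of two idempotents -/
def DD (e : S) : Set (HG e) := {d | ∃ f g : S, f * f = f ∧ g * g = g ∧ d.1 = f * g}

/-- the elements of the group at `e` that act on `z` as `e` does (on both sides) -/
def Az (e z : S) [Fact (e * e = e)] : Subgroup (HG e) where
  carrier := {g | g.1 * z = e * z ∧ z * g.1 = z * e}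
  mul_mem' := by
    rintro a b ⟨ha, ha'⟩ ⟨hb, hb'⟩
    constructor
    · rw [HG.coe_mul, mul_assoc, hb, ← mul_assoc, a.2.2.1, ha]
    · rw [HG.coe_mul, ← mul_assoc, ha', mul_assoc, b.2.1, hb']
  one_mem' := ⟨rfl, rfl⟩
  inv_mem' := by
    rintro a ⟨ha, ha'⟩
    have h1 : (a⁻¹).1 * a.1 = e := by rw [← HG.coe_mul, inv_mul_cancel, HG.coe_one]
    have h2 : a.1 * (a⁻¹).1 = e := by rw [← HG.coe_mul, mul_inv_cancel, HG.coe_one]
    constructor
    · rw [← (a⁻¹).2.2.1, mul_assoc, ← ha, ← mul_assoc, h1, ha]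
    · rw [← (a⁻¹).2.1, ← mul_assoc, ← ha', mul_assoc, h2, ha']

/-- the kernel (smallest ideal) -/
def Ker (s : S) : Prop := ∀ t : S, JLe s t

end

/-- the homomorphisms `G → A` that are trivial on `D` -/
def HomDA {G : Type} [Group G] (D : Set G) (A : Subgroup G) : Type :=
  {ψ : G →* G // (∀ d ∈ D, ψ d = 1) ∧ ∀ g, ψ g ∈ A}

/-- the group lemma for the class `k`, the exponent `N` and the numbers `a`, `m`, `B`, with bound `F` -/
def GLB (k N a m B F : ℕ) : Prop :=
  ∀ (G : Type) [Group G] [Finite G], (⊤ : Subgroup G).lowerCentralSeries k = ⊥ → (∀ g : G, g ^ N = 1) →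
    ∀ (A : Subgroup G) (D : Set G), A.index ≤ a → D.ncard ≤ m → Nat.card (HomDA D A) ≤ B → Nat.card G ≤ F

end EVR
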