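import Pool.Agent.EVR.J2

/-!
# [EVR-E] homomorphisms of maximal subgroups give endomorphisms
-/

set_option autoImplicit false

open EVS

namespace EVR

variable {S : Type} [Semigroup S] [Finite S]

omit [Finite S] in
private theorem e_self {e : S} [Fact (e * e = e)] (g : HG e) : JLe e g.1 := by
  obtain ⟨-, -, k, -, -, h, -⟩ := g.2
  exact ⟨1, k, by rw [one_mul, ← WithOne.coe_mul, h]⟩

omit [Finite S] in
private theorem e_rho {e : S} [Fact (e * e = e)] {ρ : S → HG e} (hρ : ∀ s, JLe e s → (ρ s).1 = e * s * e) (g : HG e) :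
    ρ g.1 = g := by
  apply HG.ext
  rw [hρ _ (e_self g), g.2.1, g.2.2.1]

private theorem e_fin : Finite (S →ₙ* S) :=
  Finite.of_injective (fun f : S →ₙ* S => (f : S → S)) DFunLike.coe_injective

/-- PROOF: take `ρ` of `exists_rho`. For `ψ` in the type put `Φ s = (ψ (ρ s)).1`. It is a homomorphism `S → S`:
`Φ (s * t) = ψ (ρ s * d * ρ t) = ψ (ρ s) * ψ (ρ t)` since `ψ d = 1` (all `s` are above `e` by `Ker e`). `ψ ↦ Φ` is injective: for
`g : HG e`, `(ρ g.1).1 = e * g.1 * e = g.1`, so `ρ g.1 = g`. `S →ₙ* S` is finite (as in the proof of `card_idem_le`). -/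
theorem hom_le_ker (h : PG S) (e : S) [Fact (e * e = e)] (he : Ker e) :
    Nat.card (HomDA (DD e) (⊤ : Subgroup (HG e))) ≤ nEnd S := by
  obtain ⟨ρ, hρ, hρm⟩ := exists_rho h e
  have := e_fin (S := S)
  let F : HomDA (DD e) (⊤ : Subgroup (HG e)) → (S →ₙ* S) := fun ψ =>
    { toFun := fun s => (ψ.1 (ρ s)).1
      map_mul' := by
        intro s t
        obtain ⟨d, hd, hst⟩ := hρm s t (he s) (he t)
        rw [hst, map_mul, map_mul, ψ.2.1 d hd, mul_one, HG.coe_mul] }
  refine Nat.card_le_card_of_injective F ?_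
  intro ψ ψ' hF
  apply Subtype.ext
  apply MonoidHom.ext
  intro g
  have h1 := DFunLike.congr_fun hF g.1
  change (ψ.1 (ρ g.1)).1 = (ψ'.1 (ρ g.1)).1 at h1
  rw [e_rho hρ g] at h1
  exact HG.ext h1

/-- PROOF: take `ρ` of `exists_rho`. For `ψ` in the type put `Φ s = (ψ (ρ s)).1` if `JLe e s`, and `Φ s = z` else. It is a
homomorphism `S → S`: `JLe e (s * t) ↔ JLe e s ∧ JLe e t` (`jle_mul`, `jle_left`, `jle_right`); if both are above `e` then as in
`hom_le_ker`; if not, `Φ (s * t) = z`, and `Φ s * Φ t = z` since `z * z = z` and `ψ g ∈ Az e z` means `(ψ g).1 * z = e * z = z` and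
`z * (ψ g).1 = z`. `ψ ↦ Φ` is injective since `g : HG e` is above `e` (`e = g.1 * k`) and `ρ g.1 = g`. -/
theorem hom_le (h : PG S) (e : S) [Fact (e * e = e)] {z : S} (hz : z * z = z) (h1 : e * z = z) (h2 : z * e = z) :
    Nat.card (HomDA (DD e) (Az e z)) ≤ nEnd S := by
  classical
  obtain ⟨ρ, hρ, hρm⟩ := exists_rho h e
  have he : e * e = e := Fact.out
  have := e_fin (S := S)
  let F : HomDA (DD e) (Az e z) → (S →ₙ* S) := fun ψ =>
    { toFun := fun s => if JLe e s then (ψ.1 (ρ s)).1 else z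
      map_mul' := by
        intro s t
        have ha : ∀ g, (ψ.1 g).1 * z = z ∧ z * (ψ.1 g).1 = z := by
          intro g
          obtain ⟨h3, h4⟩ : (ψ.1 g).1 * z = e * z ∧ z * (ψ.1 g).1 = z * e := ψ.2.2 g
          exact ⟨h3.trans h1, h4.trans h2⟩
        by_cases hs : JLe e s
        · by_cases ht : JLe e t
          · rw [if_pos hs, if_pos ht, if_pos (jle_mul h he hs ht)]
            obtain ⟨d, hd, hst⟩ := hρm s t hs ht
            rw [hst, map_mul, map_mul, ψ.2.1 d hd, mul_one, HG.coe_mul]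
          · rw [if_pos hs, if_neg ht, if_neg (fun h' => ht (jle_right h')), (ha _).1]
        · rw [if_neg hs, if_neg (fun h' => hs (jle_left h'))]
          by_cases ht : JLe e t
          · rw [if_pos ht, (ha _).2]
          · rw [if_neg ht, hz] }
  refine Nat.card_le_card_of_injective F ?_
  intro ψ ψ' hF
  apply Subtype.ext
  apply MonoidHom.ext
  intro g
  have h3 := DFunLike.congr_fun hF g.1
  change (if JLe e g.1 then (ψ.1 (ρ g.1)).1 else z) = (if JLe e g.1 then (ψ'.1 (ρ g.1)).1 else z) at h3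
  rw [if_pos (e_self g), if_pos (e_self g), e_rho hρ g] at h3
  exact HG.ext h3

end EVR
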