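import Pool.Agent.EVR.Defs
import Pool.Agent.EVS.H1
import Pool.Agent.EVS.WWV

/-!
# [EVR-V] the variety: maximal subgroups, exponents
-/

set_option autoImplicit false

open EVS

namespace EVR

/-- PROOF: `HG e` is (isomorphic to) a subsemigroup of `S`: `mem_of_div` (`EVS/H1.lean`), or directly: for a map `φ : ℕ → HG e`
the value of a word at `φ` has the value at `fun i => (φ i).1` as its first component (`map_lift` for the injective
homomorphism `HG e →ₙ* S`). -/
theorem mem_HG {V : Set (Wd × Wd)} {S : Type} [Semigroup S] (h : Mem V S) (e : S) [Fact (e * e = e)] : Mem V (HG e) := by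
  intro p hp φ
  let f : HG e →ₙ* S := ⟨fun a => a.1, fun a b => rfl⟩
  apply HG.ext
  have h1 : f (FreeSemigroup.lift φ p.1) = f (FreeSemigroup.lift φ p.2) := by
    rw [map_lift f φ p.1, map_lift f φ p.2]
    exact h p hp _
  exact h1

private theorem v_perm {l l' : List C2} (h : l.Perm l') : prd l = prd l' := by
  have hc : ∀ a b : C2, a * b = b * a := by decide
  induction h with
  | nil => rfl
  | cons a _ ih => rw [prd_cons, prd_cons, ih]
  | swap a b l =>
    rw [prd_cons, prd_cons, prd_cons, prd_cons, ← mul_assoc, ← mul_assoc, ← WithOne.coe_mul,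
      ← WithOne.coe_mul, hc]
  | trans _ _ ih1 ih2 => rw [ih1, ih2]

private theorem v_lift {G : Type} [Group G] (g : G) (x : ℕ) (w : Wd) :
    FreeSemigroup.lift (fun i => if i = x then g else 1) w = g ^ cnt x w := by
  induction w using FreeSemigroup.recOnMul with
  | ih1 y =>
    rw [FreeSemigroup.lift_of, wwv_cnt_of]
    by_cases h : y = x
    · rw [if_pos h, if_pos h, pow_one]
    · rw [if_neg h, if_neg h, pow_zero]
  | ih2 y w h1 h2 => rw [map_mul, h1, h2, wwv_cnt_mul, pow_add]

private theorem v_C2 {V : Set (Wd × Wd)} (h : ∀ p ∈ V, ∀ x, cnt x p.1 = cnt x p.2) : Mem V C2 := by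
  intro p hp φ
  rw [← coe_inj, coe_lift, coe_lift]
  apply v_perm
  apply List.Perm.map
  rw [List.perm_iff_count]
  intro x
  exact h p hp x

private theorem v_not_pg : ¬ PG C2 := by
  intro h
  obtain ⟨e, k, h1, h2, h3, h4, h5⟩ := h C2.one C2.c
  revert e k
  decide

/-- PROOF: the semigroup `C2 = {1, c, 0}` is not `PG`: `1 * c = c` is not in a subgroup. So `C2` is not in `V`. Suppose that
there is no `N`. Then for every `M` there are a finite group `G` in `V` and `g` in `G` with `g ^ (M !) ≠ 1` (take
`N = M !`), so `r = orderOf g` does not divide `M !` and so `r > M`. For an identity `(u, v)` of `V` and a letter `x`: the values of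
`u` and `v` at the map with `x ↦ g` and `y ↦ 1` for `y ≠ x` are `g ^ cnt x u` and `g ^ cnt x v` (`cnt` of `EVS/H1.lean`,
`wwv_cnt_mul`, `wwv_cnt_of` of `EVS/WWV.lean`), so `cnt x u ≡ cnt x v` modulo `r` for arbitrarily large `r`, so
`cnt x u = cnt x v` for all `x` and all `(u, v)` in `V`. Then all commutative semigroups satisfy the identities of `V`
(the value of a word in `WithOne` of a commutative semigroup is the product of its letters, `coe_lift`, and the lists `toL u`,
`toL v` are permutations of each other, `List.perm_iff_count`; `List.Perm.prod_eq'` or use the commutative monoid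
`WithOne C2`), so `C2` is in `V`, a contradiction. -/
theorem exists_exponent {V : Set (Wd × Wd)}
    (hV : ∀ (S : Type) [Semigroup S] [Finite S], Mem V S → PG S) :
    ∃ N : ℕ, 0 < N ∧ ∀ (G : Type) [Group G] [Finite G], Mem V G → ∀ g : G, g ^ N = 1 := by
  by_contra hcon
  apply v_not_pg
  apply hV
  apply v_C2
  intro p hp x
  by_contra hne
  apply hcon
  refine ⟨(cnt x p.1 + cnt x p.2).factorial, Nat.factorial_pos _, ?_⟩
  intro G _ _ hG g
  by_contra hg
  have h1 : ¬ orderOf g ∣ (cnt x p.1 + cnt x p.2).factorial := fun h => hg (orderOf_dvd_iff_pow_eq_one.mp h)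
  have h2 : cnt x p.1 + cnt x p.2 < orderOf g := by
    by_contra h3
    exact h1 (Nat.dvd_factorial (orderOf_pos g) (not_lt.mp h3))
  have h3 := hG p hp (fun i => if i = x then g else 1)
  rw [v_lift, v_lift] at h3
  exact hne (pow_injOn_Iio_orderOf (Set.mem_Iio.mpr (by omega)) (Set.mem_Iio.mpr (by omega)) h3)

end EVR
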