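import Pool.Agent.EVR.B
import Pool.Agent.EVR.V

/-!
# [EVR-Fin] varieties all of whose products are group elements, with nilpotent groups of bounded class
-/

set_option autoImplicit false

open EVS

namespace EVR

theorem endo_of_PG {V : Set (Wd × Wd)} (hV : ∀ (S : Type) [Semigroup S] [Finite S], Mem V S → PG S) {k : ℕ}
    (hk : ∀ (G : Type) [Group G] [Finite G], Mem V G → (⊤ : Subgroup G).lowerCentralSeries k = ⊥) :
    Endomorphic V := by
  obtain ⟨N, hN, hexp⟩ := exists_exponent hV
  intro B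
  obtain ⟨n, hn⟩ := bound k N B hN
  refine ⟨n + 1, fun S _ _ hS hc => ?_⟩
  by_contra hlt
  have h1 := hn S (hV S hS) (fun e _ => ⟨hk (HG e) (mem_HG hS e), hexp (HG e) (mem_HG hS e)⟩) (not_lt.1 hlt)
  omega

end EVR
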