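import Pool.Agent.EVR.Defs

/-!
# [EVR-GA] group theory: powers in commutative groups, elements of order `p`
-/

set_option autoImplicit false

namespace EVR

theorem ga_step {Q : Type} [CommGroup Q] [Finite Q] (p m : ℕ) :
    (powMonoidHom (p * m) : Q →* Q).range.index ≤
      (powMonoidHom p : Q →* Q).range.index * (powMonoidHom m : Q →* Q).range.index := by
  have h1 : (powMonoidHom p : Q →* Q).range.map (powMonoidHom m : Q →* Q) =
      (powMonoidHom (p * m) : Q →* Q).range := by
    rw [MonoidHom.map_range]
    congr 1
    ext x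
    exact (pow_mul x p m).symm
  have hle : (powMonoidHom (p * m) : Q →* Q).range ≤ (powMonoidHom m : Q →* Q).range := by
    rw [← h1]
    exact Subgroup.map_le_range _ _
  have h2 := Subgroup.relIndex_mul_index hle
  have h3 : (powMonoidHom (p * m) : Q →* Q).range.subgroupOf (powMonoidHom m : Q →* Q).range =
      (powMonoidHom p : Q →* Q).range.map (powMonoidHom m : Q →* Q).rangeRestrict := by
    rw [← h1]
    ext x
    rw [Subgroup.mem_subgroupOf, Subgroup.mem_map, Subgroup.mem_map]
    constructor
    · rintro ⟨y, hy, hyx⟩
      exact ⟨y, hy, Subtype.ext hyx⟩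
    · rintro ⟨y, hy, hyx⟩
      exact ⟨y, hy, congrArg Subtype.val hyx⟩
  have h4 : (powMonoidHom (p * m) : Q →* Q).range.relIndex (powMonoidHom m : Q →* Q).range ≤
      (powMonoidHom p : Q →* Q).range.index := by
    unfold Subgroup.relIndex
    rw [h3]
    exact Nat.le_of_dvd (Nat.pos_of_ne_zero Subgroup.FiniteIndex.index_ne_zero)
      (Subgroup.index_map_dvd _ (MonoidHom.rangeRestrict_surjective _))
  rw [← h2]
  exact Nat.mul_le_mul_right _ h4

/-- PROOF: let `i n` be the index of the subgroup of `n`-th powers. `i 1 = 1`. `i (p * m) ≤ i m * C` for `p` prime, `m > 0`: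
`Q ^ (p m) ≤ Q ^ m`, and `[Q ^ m : Q ^ (p m)] ≤ [Q : Q ^ p] ≤ C`, since `q ↦ q ^ m` maps `Q` onto `Q ^ m` and `Q ^ p` onto
`Q ^ (p m)`. So by induction (`induction_on_primes` or strong induction with `Nat.minFac`) `i n ≤ C ^ n` for `n > 0` (`C ≥ 1` since
indices are positive, `m + 1 ≤ p * m`). Finally `Q ^ N = 1` has index `Nat.card Q`. -/
theorem card_le_of_powers {Q : Type} [CommGroup Q] [Finite Q] {N C : ℕ} (hN : 0 < N) (hQ : ∀ q : Q, q ^ N = 1)
    (hC : ∀ p : ℕ, p.Prime → (powMonoidHom p : Q →* Q).range.index ≤ C) : Nat.card Q ≤ C ^ N := by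
  have hC1 : 1 ≤ C := by
    have h := hC 2 Nat.prime_two
    have h0 : 0 < (powMonoidHom 2 : Q →* Q).range.index := Nat.pos_of_ne_zero Subgroup.FiniteIndex.index_ne_zero
    omega
  have key : ∀ n : ℕ, 0 < n → (powMonoidHom n : Q →* Q).range.index ≤ C ^ n := by
    intro n
    induction n using Nat.strong_induction_on with
    | _ n ih =>
      intro hn
      by_cases h1 : n = 1
      · subst h1
        have h2 : (powMonoidHom 1 : Q →* Q).range = ⊤ := by
          rw [eq_top_iff]
          intro x _
          exact ⟨x, pow_one x⟩
        rw [h2, Subgroup.index_top]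
        exact Nat.one_le_pow _ _ hC1
      · have hp : n.minFac.Prime := Nat.minFac_prime h1
        obtain ⟨m, hm⟩ := Nat.minFac_dvd n
        have hm0 : 0 < m := by
          rcases Nat.eq_zero_or_pos m with h | h
          · rw [h, mul_zero] at hm
            omega
          · exact h
        have hmn : m + 1 ≤ n := by
          have h2 := hp.two_le
          calc m + 1 ≤ 2 * m := by omega
            _ ≤ n.minFac * m := Nat.mul_le_mul_right m h2
            _ = n := hm.symm
        have h3 := ga_step (Q := Q) n.minFac m
        rw [← hm] at h3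
        calc (powMonoidHom n : Q →* Q).range.index ≤
            (powMonoidHom n.minFac : Q →* Q).range.index * (powMonoidHom m : Q →* Q).range.index := h3
          _ ≤ C * C ^ m := Nat.mul_le_mul (hC _ hp) (ih m (by omega) hm0)
          _ = C ^ (m + 1) := by ring
          _ ≤ C ^ n := Nat.pow_le_pow_right hC1 hmn
  have hbot : (powMonoidHom N : Q →* Q).range = ⊥ := by
    rw [eq_bot_iff]
    rintro _ ⟨q, rfl⟩
    exact hQ q
  have h := key N hN
  rw [hbot, Subgroup.index_bot] at h
  exact h

/-- PROOF: if `p` divides `Nat.card A` then Cauchy (`exists_prime_orderOf_dvd_card'`) gives `z` in `A` of order `p`. Else every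
element `a` of `A` is a `p`-th power of an element of `A` (`powCoprime`), so `A` is contained in the preimage of the subgroup of
`p`-th powers under `Abelianization.of`, so the index of this preimage (which is the index of the subgroup,
`Subgroup.index_comap_of_surjective`) is at most `A.index` (`Subgroup.index_antitone`). -/
theorem pcase {G : Type} [Group G] [Finite G] (A : Subgroup G) {p : ℕ} (hp : p.Prime) :
    (∃ z ∈ A, orderOf z = p) ∨
      (powMonoidHom p : Abelianization G →* Abelianization G).range.index ≤ A.index := by
  have hfact : Fact p.Prime := ⟨hp⟩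
  by_cases hdvd : p ∣ Nat.card A
  · left
    obtain ⟨z, hz⟩ := exists_prime_orderOf_dvd_card' p hdvd
    exact ⟨z, z.2, by rw [Subgroup.orderOf_coe, hz]⟩
  · right
    have hcop : (Nat.card A).Coprime p := ((Nat.Prime.coprime_iff_not_dvd hp).2 hdvd).symm
    have hle : A ≤ ((powMonoidHom p : Abelianization G →* Abelianization G).range).comap
        Abelianization.of := by
      intro a ha
      obtain ⟨b, hb⟩ := (powCoprime hcop).surjective ⟨a, ha⟩
      rw [Subgroup.mem_comap]
      refine ⟨Abelianization.of (b : G), ?_⟩
      have h1 : (b : G) ^ p = a := congrArg Subtype.val hb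
      rw [powMonoidHom_apply, ← map_pow, h1]
    have hsurj : Function.Surjective (Abelianization.of : G →* Abelianization G) :=
      QuotientGroup.mk_surjective
    rw [← Subgroup.index_comap_of_surjective _ hsurj]
    exact Subgroup.index_antitone hle

end EVR
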