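import Pool.Agent.EVR.Defs

/-!
# [EVR-J1] the J-order in semigroups all of whose products are group elements
-/

set_option autoImplicit false

open EVS

namespace EVR

variable {S : Type} [Semigroup S] [Finite S]

omit [Finite S] in
private theorem j1_coe_mul (b : S) (v : WithOne S) : ∃ b' : S, (b' : WithOne S) = b * v := by
  induction v using WithOne.recOneCoe with
  | one => exact ⟨b, (mul_one _).symm⟩
  | coe w => exact ⟨b * w, WithOne.coe_mul b w⟩

omit [Finite S] in
private theorem j1_pw_left {e g : S} (h : e * g = g) (n : ℕ) : e * pw g n = pw g n := by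
  induction n with
  | zero => exact h
  | succ n ih => rw [pw_succ, ← mul_assoc, ih]

omit [Finite S] in
private theorem j1_pw_right {e g : S} (h : g * e = g) (n : ℕ) : pw g n * e = pw g n := by
  induction n with
  | zero => exact h
  | succ n ih => rw [pw_succ, mul_assoc, h]

omit [Finite S] in
private theorem j1_refl (e : S) : JLe e e := ⟨1, 1, by rw [one_mul, mul_one]⟩

/-- PROOF: `isGp_iff` (`EVS/Basic.lean`: `IsGp g ↔ g * om g = g`). -/
theorem pg_mul_om (h : PG S) (s t : S) : s * t * om (s * t) = s * t := isGp_iff.1 (h s t)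

/-- PROOF: `pg_mul_om`, `om_comm`. -/
theorem pg_om_mul (h : PG S) (s t : S) : om (s * t) * (s * t) = s * t := by
  rw [om_comm]; exact pg_mul_om h s t

omit [Finite S] in
/-- PROOF: definition of `JLe` (`a = x * b * y` in `WithOne S`). -/
theorem jle_left {e s t : S} (h : JLe e (s * t)) : JLe e s := by
  obtain ⟨x, y, h⟩ := h
  exact ⟨x, t * y, by rw [h, WithOne.coe_mul]; simp only [mul_assoc]⟩

omit [Finite S] in
theorem jle_right {e s t : S} (h : JLe e (s * t)) : JLe e t := by
  obtain ⟨x, y, h⟩ := h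
  exact ⟨x * s, y, by rw [h, WithOne.coe_mul]; simp only [mul_assoc]⟩

/-- PROOF: `c = a * b` satisfies `c = om c * c` (`pg_om_mul`) `= c * om c`, and `om c = pw c n` for some `n` (`om_eq_pw`),
so `c = pw c (n + 1)` and also `c = pw c (2 n + 2)`, so `c = c * c * u` in `WithOne S`, i.e. `a * b = a * (b * a) * (b * u)`. -/
theorem jle_comm (h : PG S) (a b : S) : JLe (a * b) (b * a) := by
  obtain ⟨n, hn⟩ := om_eq_pw (a * b)
  have h1 : ((a * b : S) : WithOne S) = (a * b : S) * (a * b : S) * ((a * b : S) : WithOne S) ^ n := by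
    have h2 := congrArg (fun x : S => (x : WithOne S)) (pg_mul_om h a b)
    rw [WithOne.coe_mul, hn, coe_pw, pow_succ', ← mul_assoc] at h2
    exact h2.symm
  refine ⟨a, b * ((a * b : S) : WithOne S) ^ n, ?_⟩
  refine h1.trans ?_
  simp only [WithOne.coe_mul, mul_assoc]

/-- PROOF: let `e = x s y = u t v` in `WithOne S`; then `e = e * e = x (s w t) v` with `w = y u`. Put `a = s w` (in `S`).
So `e` is below `a * t`, which is below `t * a` (`jle_comm`) `= (t s) w`, so below `t * s`, which is below `s * t` (`jle_comm`).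
Use `JLe.trans'` (`EVA/F1.lean`). -/
theorem jle_mul (h : PG S) {e s t : S} (he : e * e = e) (hs : JLe e s) (ht : JLe e t) : JLe e (s * t) := by
  obtain ⟨x, y, h1⟩ := hs
  obtain ⟨u, v, h2⟩ := ht
  obtain ⟨a, ha⟩ := j1_coe_mul s (y * u)
  have h3 : JLe e (a * t) := by
    refine ⟨x, v, ?_⟩
    have h4 : (e : WithOne S) = e * e := by rw [← WithOne.coe_mul, he]
    rw [h4, WithOne.coe_mul, ha]
    conv_lhs => rw [h1]
    conv_lhs => rw [mul_assoc, ← h1, h2]
    simp only [mul_assoc]
  have h5 : JLe (t * a) (t * s) := ⟨1, y * u, by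
    rw [WithOne.coe_mul, ha, WithOne.coe_mul]; simp only [mul_assoc, one_mul]⟩
  exact ((h3.trans' (jle_comm h a t)).trans' h5).trans' (jle_comm h t s)

/-- PROOF: `JLe e (e * s)` by `jle_mul` (`JLe e e`), so `e = (e * s) * c` in `WithOne S` for some `c` (`stab_right` of
`EVA/F1.lean`). Now `om (e * s) * (e * s) = e * s` (`pg_om_mul`), so `om (e * s) * e = e`. And `om (e * s)` is a power
`pw (e * s) n` (`om_eq_pw`), which starts with `e`, so `e * om (e * s) = om (e * s)`. -/
theorem om_left (h : PG S) {e s : S} (he : e * e = e) (hs : JLe e s) :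
    e * om (e * s) = om (e * s) ∧ om (e * s) * e = e := by
  obtain ⟨c, hc⟩ := stab_right (jle_mul h he (j1_refl e) hs)
  constructor
  · obtain ⟨n, hn⟩ := om_eq_pw (e * s)
    rw [hn]
    exact j1_pw_left (by rw [← mul_assoc, he]) n
  · rw [← coe_inj, WithOne.coe_mul]
    conv_lhs => rw [hc]
    rw [← mul_assoc, ← WithOne.coe_mul, pg_om_mul h, ← hc]

/-- PROOF: the dual of `om_left` (`stab_left`). -/
theorem om_right (h : PG S) {e s : S} (he : e * e = e) (hs : JLe e s) :
    om (s * e) * e = om (s * e) ∧ e * om (s * e) = e := by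
  obtain ⟨c, hc⟩ := stab_left (jle_mul h he hs (j1_refl e))
  constructor
  · obtain ⟨n, hn⟩ := om_eq_pw (s * e)
    rw [hn]
    exact j1_pw_right (by rw [mul_assoc, he]) n
  · rw [← coe_inj, WithOne.coe_mul]
    conv_lhs => rw [hc]
    rw [mul_assoc, ← WithOne.coe_mul, pg_mul_om h, ← hc]

/-- PROOF: `om (e * (s * e)) * e = e` by `om_left` for `s * e` (`jle_mul`); but `om (e * s * e)` is a power of `e * s * e`, so it
ends with `e` and `om (e * s * e) * e = om (e * s * e)`. -/
theorem om_mid (h : PG S) {e s : S} (he : e * e = e) (hs : JLe e s) : om (e * s * e) = e := by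
  have h1 := (om_left h he (jle_mul h he hs (j1_refl e))).2
  rw [← mul_assoc] at h1
  obtain ⟨n, hn⟩ := om_eq_pw (e * s * e)
  have h2 : om (e * s * e) * e = om (e * s * e) := by
    rw [hn]
    exact j1_pw_right (by rw [mul_assoc, he]) n
  rw [← h2, h1]

/-- PROOF: let `g = e * s * e`. `om g = e` (`om_mid`), `om g = pw g n` for some `n`; an inverse of `g` is `pw g (2 n)`
(`pw g (2n) * g = pw g (2n+1) = pw g n * pw g n = e`, `pw_mul_pw`, `mul_pw_comm`). -/
theorem mid_mem (h : PG S) {e s : S} (he : e * e = e) (hs : JLe e s) :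
    e * (e * s * e) = e * s * e ∧ (e * s * e) * e = e * s * e ∧
      ∃ k : S, e * k = k ∧ k * e = k ∧ (e * s * e) * k = e ∧ k * (e * s * e) = e := by
  have h1 : e * (e * s * e) = e * s * e := by rw [← mul_assoc, ← mul_assoc, he]
  have h2 : (e * s * e) * e = e * s * e := by rw [mul_assoc, he]
  obtain ⟨n, hn⟩ := om_eq_pw (e * s * e)
  rw [om_mid h he hs] at hn
  have h3 : (e * s * e) * pw (e * s * e) (n + n) = e := by
    rw [mul_pw, ← pw_mul_pw, ← hn, he]
  exact ⟨h1, h2, pw (e * s * e) (n + n), j1_pw_left h1 _, j1_pw_right h2 _, h3, by rw [← mul_pw_comm, h3]⟩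

end EVR
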