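import Pool.Agent.EVR.J1

/-!
# [EVR-J2] the almost homomorphism `s ↦ e s e`
-/

set_option autoImplicit false

open EVS

namespace EVR

variable {S : Type} [Semigroup S] [Finite S]

/-- PROOF: `ρ s = e * s * e` if `JLe e s` (`mid_mem`), `ρ s = 1` else. For `s`, `t` above `e` let `f = om (e * s)`,
`g = om (t * e)`. Then `e * s = (e * s) * f` (`pg_mul_om`), `f = e * f`, `t * e = g * (t * e)`, `g = g * e` (`om_left`, `om_right`), so
`e * (s * t) * e = (e * s) * f * (g * (t * e)) = (e * s) * (e * f) * (g * e) * (t * e) = (e * s * e) * (f * g) * (e * t * e)`.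
`d = f * g` is in the group at `e`: `JLe e f`, `JLe e g` (since `f * e = e`, `e * g = e`), so `JLe e (f * g)` (`jle_mul`),
`f * g = e * (f * g) * e`, and `mid_mem` applies. `f`, `g` are idempotent (`om_idem`), so `d` is in `DD e`. -/
theorem exists_rho (h : PG S) (e : S) [Fact (e * e = e)] :
    ∃ ρ : S → HG e, (∀ s, JLe e s → (ρ s).1 = e * s * e) ∧
      ∀ s t, JLe e s → JLe e t → ∃ d ∈ DD e, ρ (s * t) = ρ s * d * ρ t := by
  classical
  have he : e * e = e := Fact.out
  have hjf : ∀ s, JLe e s → JLe e (om (e * s)) := fun s hs => ⟨1, (e : WithOne S), by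
    rw [one_mul, ← WithOne.coe_mul, (om_left h he hs).2]⟩
  have hjg : ∀ t, JLe e t → JLe e (om (t * e)) := fun t ht => ⟨(e : WithOne S), 1, by
    rw [mul_one, ← WithOne.coe_mul, (om_right h he ht).2]⟩
  refine ⟨fun s => if hs : JLe e s then ⟨e * s * e, mid_mem h he hs⟩ else 1, fun s hs => ?_, ?_⟩
  · simp only [dif_pos hs]
  intro s t hs ht
  have hf1 := (om_left h he hs).1
  have hg1 := (om_right h he ht).1
  have hfg := mid_mem h he (jle_mul h he (hjf s hs) (hjg t ht))
  have hfg' : e * (om (e * s) * om (t * e)) * e = om (e * s) * om (t * e) := by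
    rw [← mul_assoc, hf1, mul_assoc, hg1]
  rw [hfg'] at hfg
  refine ⟨⟨om (e * s) * om (t * e), hfg⟩, ⟨om (e * s), om (t * e), om_idem _, om_idem _, rfl⟩, ?_⟩
  apply HG.ext
  simp only [dif_pos hs, dif_pos ht, dif_pos (jle_mul h he hs ht), HG.coe_mul]
  calc e * (s * t) * e = (e * s) * (t * e) := by simp only [mul_assoc]
    _ = (e * s * om (e * s)) * (om (t * e) * (t * e)) := by rw [pg_mul_om h, pg_om_mul h]
    _ = (e * s * (e * om (e * s))) * ((om (t * e) * e) * (t * e)) := by rw [hf1, hg1]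
    _ = _ := by simp only [mul_assoc]

end EVR
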